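import Pool.Agent.Helper6_BEW.LVOB

/-!
# Squad BEW (MP_be01ff_an), row LVO: the energy of the other modes over a step
-/

set_option autoImplicit false

namespace Pool.Agent.BEW.H6

open Set Filter Topology MeasureTheory
open scoped InnerProductSpace ENNReal
open Pool.Agent.BE01 Pool.Agent.BEL Pool.Agent.BEG Pool.Agent.BEH Pool.Agent.BER

noncomputable section

theorem lvo_vel {X : Type} (b : ℕ → X → ℝ) (M : ℕ) (hM : 1 ≤ M) (v : ℕ → ℝ → ℝ) (t : ℝ) (x : X) :
    vel b (Finset.range M) v t x = v 0 t * b 0 x + vel b (Finset.Ico 1 M) v t x := by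
  unfold vel
  rw [Finset.range_eq_Ico, Finset.sum_eq_sum_Ico_succ_bot (by omega)]

theorem lvo (tay : TayStmt) (der : DerStmt) (frw : FrwStmt) (bsl : BslStmt) : LvoStmt := by
  intro al B m0 hal hB hm0
  obtain ⟨C, hC, tay'⟩ := tay al hal
  obtain ⟨CF, hF, frw'⟩ := frw al B m0 hal hB hm0
  set KK : ℝ := (2 * (C * (16 * B) ^ (al - min al 1) * 16) +
        (2 * (C * 3 ^ al * CF * (B ^ al * B) * 4 * Real.sqrt m0 +
          B ^ al * B * CF * Real.sqrt m0) +
         2 * (al + 1) * (C * 3 ^ (al - min al 1) * CF ^ (min al 1) * B ^ al * 16 +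
          B ^ al * CF * (12 + 2 * CF)))) with hKK
  have hKK0 : 0 < KK := by
    have : 0 < Real.sqrt m0 := Real.sqrt_pos.2 hm0
    rw [hKK]
    positivity
  refine ⟨KK, hKK0, ?_⟩
  intro X _ μ b om M p v γ ε η T t0 R σ ons frq hε hη hη1 hT avg wdw hτ1 hσ0 hσ
  have hfin := ons.fin
  have hR := wdw.Rp
  have hT0 : 0 < T := by linarith
  obtain ⟨-, d2, -, -⟩ := der X μ b om M al B m0 p v hal ons wdw.one wdw.gal
  have bsl2 := (bsl X μ b B m0 ons).2
  have hFR := frw' X μ b om M p v η T t0 R ons frq hη hη1 hT wdw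
  have hbm : ∀ k, Bm (b k) := fun k => ⟨ons.meas k, B, ons.bdd k⟩
  set S : Finset ℕ := Finset.Ico 1 M with hS
  have h0S : 0 ∉ S := by
    rw [hS, Finset.mem_Ico]
    omega
  set P : ℕ → ℝ := fun k => p k t0 with hP
  set V : ℕ → ℝ := fun k => v k t0 with hV
  have hnn : nn S P V = F2 M p v t0 := rfl
  -- the angle
  obtain ⟨θ, hθ1, hθ2⟩ := lvo_angle (v 0 t0) (p 0 t0) R hR wdw.Re
  have hc0 : ∀ s, v 0 t0 * Real.cos (om 0 * s) - p 0 t0 * Real.sin (om 0 * s) =
      R * Real.cos (om 0 * s + θ) := by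
    intro s
    rw [hθ1, hθ2, Real.cos_add]
    ring
  set τ : ℝ := T * R ^ al with hτ
  have hρ : 0 < R ^ al := by positivity
  have hτ0 : 0 < τ := by positivity
  have hTR : CF * T * R ^ (al + 1) = CF * τ * R := by
    rw [(lvo_r al R hR).2.1, hτ]
    ring
  set E : ℝ := KK * ((σ ^ (min al 1) * η ^ 2 + τ ^ (min al 1)) * (R ^ al * R ^ 2)) with hE
  set J1 : ℝ → ℝ := fun s => |Real.cos (om 0 * s + θ)| ^ al *
      ∫ x, |b 0 x| ^ al * fre b om S P V s x ^ 2 ∂μ with hJ1
  set J2 : ℝ → ℝ := fun s => |Real.cos (om 0 * s + θ)| ^ al * Real.cos (om 0 * s + θ) *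
      ∫ x, |b 0 x| ^ al * b 0 x * fre b om S P V s x ∂μ with hJ2
  set φ : ℝ → ℝ := fun s => -(2 * (al + 1) * R ^ al) * J1 s + -(2 * (R ^ al * R)) * J2 s + E
    with hφ
  have bal : Bm fun x => |b 0 x| ^ al := (hbm 0).rpow hal.le
  have hcos : Continuous fun s : ℝ => Real.cos (om 0 * s + θ) :=
    Real.continuous_cos.comp ((continuous_const.mul continuous_id).add continuous_const)
  have hcosal : Continuous fun s : ℝ => |Real.cos (om 0 * s + θ)| ^ al :=
    hcos.abs.rpow_const fun _ => Or.inr hal.le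
  have cJ1 : Continuous J1 :=
    hcosal.mul (fre_int_cont hbm ons.bdd om S P V bal).2
  have cJ2 : Continuous J2 :=
    (hcosal.mul hcos).mul (fre_int_cont hbm ons.bdd om S P V (bal.mul (hbm 0))).1
  have cφ : Continuous φ :=
    ((continuous_const.mul cJ1).add (continuous_const.mul cJ2)).add continuous_const
  -- the pointwise estimate
  have hpt : ∀ s ∈ Ioo 0 T, -(2 * ∫ x, gl 1 al 1 (vel b (Finset.range M) v (t0 + s) x) *
      vel b S v (t0 + s) x ∂μ) ≤ φ s := by
    intro s hs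
    have hs' : s ∈ Icc 0 T := ⟨hs.1.le, hs.2.le⟩
    obtain ⟨r1, -, r3, -⟩ := hFR s hs'
    rw [hc0, hTR] at r1
    rw [hTR] at r3
    have hv0 : |v 0 (t0 + s)| ≤ 2 * R := by
      have h1 := (wdw.w0 s hs').2
      have h2 : v 0 (t0 + s) ^ 2 ≤ (2 * R) ^ 2 := by
        unfold R2 at h1
        nlinarith [sq_nonneg (p 0 (t0 + s))]
      exact abs_le_of_sq_le_sq h2 (by positivity)
    have hcc : |R * Real.cos (om 0 * s + θ)| ≤ R := by
      rw [abs_mul, abs_of_pos hR]
      exact mul_le_of_le_one_right hR.le (Real.abs_cos_le_one _)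
    have hint : ∫ x, vel b S v (t0 + s) x ^ 2 ∂μ ≤ (4 * η * R) ^ 2 := by
      have h1 : ∫ x, vel b S v (t0 + s) x ^ 2 ∂μ = ∑ k ∈ S, v k (t0 + s) ^ 2 :=
        bsl2 S fun k => v k (t0 + s)
      rw [h1]
      refine le_trans (Finset.sum_le_sum fun k _ => ?_) (wdw.w1 s hs')
      have := sq_nonneg (p k (t0 + s))
      linarith
    have e1 : ∀ x, vel b (Finset.range M) v (t0 + s) x =
        v 0 (t0 + s) * b 0 x + vel b S v (t0 + s) x := lvo_vel b M wdw.one v (t0 + s)
    simp only [e1]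
    have hglm : Bm fun x => gl 1 al 1 (v 0 (t0 + s) * b 0 x + vel b S v (t0 + s) x) := by
      have e2 : (fun x => gl 1 al 1 (v 0 (t0 + s) * b 0 x + vel b S v (t0 + s) x)) =
          fun x => |v 0 (t0 + s) * b 0 x + vel b S v (t0 + s) x| ^ al *
            (v 0 (t0 + s) * b 0 x + vel b S v (t0 + s) x) := by
        funext x
        rw [Pool.Agent.BEL.H29.gl_eq hal]
        · unfold gf
          rw [one_mul]
        · rw [← e1]
          exact (wdw.w3 s hs' x).trans wdw.w4
      rw [e2]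
      have hc : Bm fun x => v 0 (t0 + s) * b 0 x + vel b S v (t0 + s) x :=
        ((Bm.cst _).mul (hbm 0)).add (vel_bm hbm S v (t0 + s))
      exact (hc.rpow hal.le).mul hc
    have key := lvo_pt (μ := μ) (al := al) (C := C) (CF := CF) (B := B) (m0 := m0) (R := R)
      (σ := σ) (η := η) (τ := τ) (v0 := v 0 (t0 + s)) (c0 := R * Real.cos (om 0 * s + θ))
      (b0 := b 0) (h := fun x => vel b S v (t0 + s) x) (f := fun x => fre b om S P V s x)
      hal tay' hC hF hB hm0 ons.mass hR hτ0 hτ1 hσ0 hη hη1 (hbm 0) (vel_bm hbm S v (t0 + s))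
      (fre_bm hbm om S P V s) (ons.bdd 0) hv0 hcc r1 r3 hint (hσ s hs')
      (fun x => by rw [← e1]; exact wdw.w3 s hs' x) wdw.w4
      (hglm.mul (vel_bm hbm S v (t0 + s))).int
    refine key.trans (le_of_eq ?_)
    rw [hφ, hE, hJ1, hJ2]
    simp only
    have e3 : |R * Real.cos (om 0 * s + θ)| ^ al = R ^ al * |Real.cos (om 0 * s + θ)| ^ al := by
      rw [abs_mul, abs_of_pos hR, Real.mul_rpow hR.le (abs_nonneg _)]
    have e4 : gf 1 al (R * Real.cos (om 0 * s + θ)) =
        R ^ al * R * (|Real.cos (om 0 * s + θ)| ^ al * Real.cos (om 0 * s + θ)) := by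
      unfold gf
      rw [e3]
      ring
    rw [e3, e4]
    ring
  -- the integral
  have hderiv : ∀ s ∈ Ioo 0 T, HasDerivWithinAt (fun s => F2 M p v (t0 + s))
      (-(2 * ∫ x, gl 1 al 1 (vel b (Finset.range M) v (t0 + s) x) *
      vel b S v (t0 + s) x ∂μ)) (Ioi s) s := fun s _ =>
    (HasDerivAt.comp_const_add t0 s (d2 (t0 + s))).hasDerivWithinAt
  have hcont : ContinuousOn (fun s => F2 M p v (t0 + s)) (Icc 0 T) := fun s _ =>
    (HasDerivAt.comp_const_add t0 s (d2 (t0 + s))).continuousAt.continuousWithinAt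
  have hmain := intervalIntegral.sub_le_integral_of_hasDeriv_right_of_le hT0.le hcont hderiv
    cφ.continuousOn.integrableOn_Icc hpt
  have hI : ∫ s in (0 : ℝ)..T, φ s = -(2 * (al + 1) * R ^ al) * (∫ s in (0 : ℝ)..T, J1 s) +
      -(2 * (R ^ al * R)) * (∫ s in (0 : ℝ)..T, J2 s) + E * T := by
    rw [hφ]
    have i1 : IntervalIntegrable J1 volume 0 T := cJ1.intervalIntegrable 0 T
    have i2 : IntervalIntegrable J2 volume 0 T := cJ2.intervalIntegrable 0 T
    rw [intervalIntegral.integral_add ((i1.const_mul _).add (i2.const_mul _))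
      intervalIntegrable_const, intervalIntegral.integral_add (i1.const_mul _) (i2.const_mul _),
      intervalIntegral.integral_const_mul, intervalIntegral.integral_const_mul,
      intervalIntegral.integral_const]
    simp only [sub_zero, smul_eq_mul]
    ring
  rw [hI] at hmain
  have A1 := avg.a1 S P V θ h0S
  have A2 := avg.a2 S P V θ h0S
  rw [hnn] at A1 A2
  have A2' := (abs_le.1 A2).1
  have e5 : (fun s => J1 s) = J1 := rfl
  simp only [add_zero] at hmain
  have hA1 : -(2 * (al + 1) * R ^ al) * (∫ s in (0 : ℝ)..T, J1 s) ≤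
      -(2 * (al + 1) * R ^ al) * ((γ - ε) * T * F2 M p v t0) :=
    mul_le_mul_of_nonpos_left A1 (by
      have : 0 ≤ 2 * (al + 1) * R ^ al := by positivity
      linarith)
  have hA2 : -(2 * (R ^ al * R)) * (∫ s in (0 : ℝ)..T, J2 s) ≤
      -(2 * (R ^ al * R)) * (-(ε * T * Real.sqrt (F2 M p v t0))) :=
    mul_le_mul_of_nonpos_left A2' (by
      have : 0 ≤ 2 * (R ^ al * R) := by positivity
      linarith)
  rw [(lvo_r al R hR).2.1, (lvo_r al R hR).2.2]
  have hEE : E * T = KK * (σ ^ (min al 1) * η ^ 2 + τ ^ (min al 1)) * T * (R ^ al * R ^ 2) := by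
    rw [hE]; ring
  rw [hEE] at hmain
  linarith

end

end Pool.Agent.BEW.H6
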