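import Pool.Agent.BEW.StmtsD
import Pool.Agent.Helper29_BEL.GLP

/-!
# Squad BEW (MP_be01ff_an), row LVO: the energy of the other modes over a step, part A
-/

set_option autoImplicit false

namespace Pool.Agent.BEW.H6

open Set Filter Topology MeasureTheory
open scoped InnerProductSpace ENNReal
open Pool.Agent.BE01 Pool.Agent.BEL Pool.Agent.BEG Pool.Agent.BEH Pool.Agent.BER

noncomputable section

variable {X : Type} [MeasurableSpace X]

/-- bounded and measurable -/
def Bm (u : X → ℝ) : Prop := Measurable u ∧ ∃ C : ℝ, ∀ x, |u x| ≤ C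

theorem Bm.cst (c : ℝ) : Bm (fun _ : X => c) := ⟨measurable_const, |c|, fun _ => le_rfl⟩

theorem Bm.add {u w : X → ℝ} (hu : Bm u) (hw : Bm w) : Bm (fun x => u x + w x) := by
  obtain ⟨mu', C, hC⟩ := hu
  obtain ⟨mw, D, hD⟩ := hw
  exact ⟨mu'.add mw, C + D, fun x => (abs_add_le _ _).trans (add_le_add (hC x) (hD x))⟩

theorem Bm.mul {u w : X → ℝ} (hu : Bm u) (hw : Bm w) : Bm (fun x => u x * w x) := by
  obtain ⟨mu', C, hC⟩ := hu
  obtain ⟨mw, D, hD⟩ := hw
  refine ⟨mu'.mul mw, C * D, fun x => ?_⟩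
  rw [abs_mul]
  exact mul_le_mul (hC x) (hD x) (abs_nonneg _) ((abs_nonneg _).trans (hC x))

theorem Bm.sub {u w : X → ℝ} (hu : Bm u) (hw : Bm w) : Bm (fun x => u x - w x) := by
  have h := hu.add ((Bm.cst (X := X) (-1)).mul hw)
  have e : (fun x => u x - w x) = fun x => u x + -1 * w x := by
    funext x
    ring
  rw [e]
  exact h

theorem Bm.sq {u : X → ℝ} (hu : Bm u) : Bm (fun x => u x ^ 2) := by
  have h := hu.mul hu
  have e : (fun x => u x ^ 2) = fun x => u x * u x := by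
    funext x
    ring
  rw [e]
  exact h

theorem Bm.sum {S : Finset ℕ} {u : ℕ → X → ℝ} (h : ∀ k, Bm (u k)) :
    Bm (fun x => ∑ k ∈ S, u k x) := by
  classical
  induction S using Finset.induction_on with
  | empty =>
    have e : (fun x : X => ∑ k ∈ (∅ : Finset ℕ), u k x) = fun _ => 0 := by
      funext x
      simp
    rw [e]
    exact Bm.cst 0
  | insert a s ha ih =>
    have e : (fun x : X => ∑ k ∈ insert a s, u k x) = fun x => u a x + ∑ k ∈ s, u k x := by
      funext x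
      rw [Finset.sum_insert ha]
    rw [e]
    exact (h a).add ih

theorem Bm.rpow {u : X → ℝ} {a : ℝ} (ha : 0 ≤ a) (hu : Bm u) : Bm (fun x => |u x| ^ a) := by
  obtain ⟨mu', C, hC⟩ := hu
  refine ⟨(measurable_norm.comp mu').pow_const a, C ^ a, fun x => ?_⟩
  rw [abs_of_nonneg (Real.rpow_nonneg (abs_nonneg _) _)]
  exact Real.rpow_le_rpow (abs_nonneg _) (hC x) ha

theorem Bm.int {μ : Measure X} [IsFiniteMeasure μ] {u : X → ℝ} (hu : Bm u) :
    Integrable u μ := by
  obtain ⟨mu', C, hC⟩ := hu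
  exact Integrable.of_bound mu'.aestronglyMeasurable C (Filter.Eventually.of_forall hC)

/-- Cauchy-Schwarz -/
theorem lvo_cs {μ : Measure X} [IsFiniteMeasure μ] {φ u w : X → ℝ} (hu : Bm u)
    (hw : Bm w) {K a b : ℝ} (hK0 : 0 ≤ K) (hK : ∀ x, |φ x| ≤ K) (ha : 0 < a) (hb : 0 < b)
    (h1 : ∫ x, u x ^ 2 ∂μ ≤ a ^ 2) (h2 : ∫ x, w x ^ 2 ∂μ ≤ b ^ 2) :
    |∫ x, φ x * (u x * w x) ∂μ| ≤ K * a * b := by
  have h3 : ∀ x, ‖φ x * (u x * w x)‖ ≤ K * (b / (2 * a) * u x ^ 2 + a / (2 * b) * w x ^ 2) := by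
    intro x
    rw [Real.norm_eq_abs, abs_mul, abs_mul]
    have h4 : |u x| * |w x| ≤ b / (2 * a) * u x ^ 2 + a / (2 * b) * w x ^ 2 := by
      rw [← sq_abs (u x), ← sq_abs (w x)]
      have e : b / (2 * a) * |u x| ^ 2 + a / (2 * b) * |w x| ^ 2 - |u x| * |w x| =
          (b * |u x| - a * |w x|) ^ 2 / (2 * a * b) := by
        field_simp
        ring
      have : 0 ≤ (b * |u x| - a * |w x|) ^ 2 / (2 * a * b) := by positivity
      linarith
    exact mul_le_mul (hK x) h4 (by positivity) hK0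
  have h5 : Integrable (fun x => K * (b / (2 * a) * u x ^ 2 + a / (2 * b) * w x ^ 2)) μ :=
    ((Bm.cst K).mul (((Bm.cst (b / (2 * a))).mul hu.sq).add
      ((Bm.cst (a / (2 * b))).mul hw.sq))).int
  have h6 := norm_integral_le_of_norm_le h5 (Filter.Eventually.of_forall h3)
  rw [integral_const_mul, integral_add (((Bm.cst (b / (2 * a))).mul hu.sq).int)
    (((Bm.cst (a / (2 * b))).mul hw.sq).int), integral_const_mul, integral_const_mul,
    Real.norm_eq_abs] at h6
  refine h6.trans ?_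
  have h7 : b / (2 * a) * ∫ x, u x ^ 2 ∂μ ≤ b / (2 * a) * a ^ 2 :=
    mul_le_mul_of_nonneg_left h1 (by positivity)
  have h8 : a / (2 * b) * ∫ x, w x ^ 2 ∂μ ≤ a / (2 * b) * b ^ 2 :=
    mul_le_mul_of_nonneg_left h2 (by positivity)
  have h9 : b / (2 * a) * a ^ 2 + a / (2 * b) * b ^ 2 = a * b := by
    field_simp
    ring
  have h10 : K * (b / (2 * a) * ∫ x, u x ^ 2 ∂μ + a / (2 * b) * ∫ x, w x ^ 2 ∂μ) ≤
      K * (a * b) := mul_le_mul_of_nonneg_left (by linarith) hK0
  linarith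

/-- an angle -/
theorem lvo_angle (x y R : ℝ) (hR : 0 < R) (h : y ^ 2 + x ^ 2 = R ^ 2) :
    ∃ θ : ℝ, x = R * Real.cos θ ∧ y = R * Real.sin θ := by
  have h1 : ‖(⟨x, y⟩ : ℂ)‖ = R := by
    have h2 : ‖(⟨x, y⟩ : ℂ)‖ ^ 2 = R ^ 2 := by
      rw [← Complex.normSq_eq_norm_sq, Complex.normSq_mk]
      linarith
    exact (pow_left_inj₀ (norm_nonneg _) hR.le two_ne_zero).1 h2
  refine ⟨Complex.arg ⟨x, y⟩, ?_, ?_⟩
  · have h3 := Complex.norm_mul_cos_arg (⟨x, y⟩ : ℂ)
    rw [h1] at h3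
    exact h3.symm
  · have h3 := Complex.norm_mul_sin_arg (⟨x, y⟩ : ℂ)
    rw [h1] at h3
    exact h3.symm

/-- the free evolution is bounded and measurable -/
theorem fre_bm {b : ℕ → X → ℝ} (hb : ∀ k, Bm (b k)) (om : ℕ → ℝ) (S : Finset ℕ) (P V : ℕ → ℝ)
    (s : ℝ) : Bm (fun x => fre b om S P V s x) := by
  unfold fre
  exact Bm.sum fun k => (Bm.cst _).mul (hb k)

theorem vel_bm {b : ℕ → X → ℝ} (hb : ∀ k, Bm (b k)) (S : Finset ℕ) (v : ℕ → ℝ → ℝ)
    (t : ℝ) : Bm (fun x => vel b S v t x) := by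
  unfold vel
  exact Bm.sum fun k => (Bm.cst _).mul (hb k)

theorem fre_le {b : ℕ → X → ℝ} {B : ℝ} (hb : ∀ k x, |b k x| ≤ B) (om : ℕ → ℝ) (S : Finset ℕ)
    (P V : ℕ → ℝ) (s : ℝ) (x : X) : |fre b om S P V s x| ≤ ∑ k ∈ S, (|V k| + |P k|) * B := by
  unfold fre
  refine (Finset.abs_sum_le_sum_abs _ _).trans (Finset.sum_le_sum fun k _ => ?_)
  rw [abs_mul]
  refine mul_le_mul ?_ (hb k x) (abs_nonneg _) (by positivity)
  refine (abs_sub _ _).trans (add_le_add ?_ ?_)
  · rw [abs_mul]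
    exact mul_le_of_le_one_right (abs_nonneg _) (Real.abs_cos_le_one _)
  · rw [abs_mul]
    exact mul_le_of_le_one_right (abs_nonneg _) (Real.abs_sin_le_one _)

theorem fre_cont (b : ℕ → X → ℝ) (om : ℕ → ℝ) (S : Finset ℕ) (P V : ℕ → ℝ) (x : X) :
    Continuous fun s => fre b om S P V s x := by
  unfold fre
  refine continuous_finset_sum _ fun k _ => ?_
  exact ((continuous_const.mul (Real.continuous_cos.comp (continuous_const.mul continuous_id))).sub
    (continuous_const.mul (Real.continuous_sin.comp (continuous_const.mul continuous_id)))).mul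
    continuous_const

theorem fre_int_cont {μ : Measure X} [IsFiniteMeasure μ] {b : ℕ → X → ℝ} {B : ℝ}
    (hbm : ∀ k, Bm (b k)) (hb : ∀ k x, |b k x| ≤ B) (om : ℕ → ℝ) (S : Finset ℕ)
    (P V : ℕ → ℝ) {w : X → ℝ} (hw : Bm w) :
    (Continuous fun s => ∫ x, w x * fre b om S P V s x ∂μ) ∧
    Continuous fun s => ∫ x, w x * fre b om S P V s x ^ 2 ∂μ := by
  obtain ⟨C, hC⟩ := hw.2
  constructor
  · refine continuous_of_dominated (bound := fun _ => C * ∑ k ∈ S, (|V k| + |P k|) * B)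
      (fun s => (hw.mul (fre_bm hbm om S P V s)).1.aestronglyMeasurable) ?_
      (integrable_const _) ?_
    · intro s
      refine Filter.Eventually.of_forall fun x => ?_
      rw [Real.norm_eq_abs, abs_mul]
      exact mul_le_mul (hC x) (fre_le hb om S P V s x) (abs_nonneg _)
        ((abs_nonneg _).trans (hC x))
    · refine Filter.Eventually.of_forall fun x => ?_
      exact continuous_const.mul (fre_cont b om S P V x)
  · refine continuous_of_dominated (bound := fun _ => C * (∑ k ∈ S, (|V k| + |P k|) * B) ^ 2)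
      (fun s => (hw.mul (fre_bm hbm om S P V s).sq).1.aestronglyMeasurable) ?_
      (integrable_const _) ?_
    · intro s
      refine Filter.Eventually.of_forall fun x => ?_
      rw [Real.norm_eq_abs, abs_mul, abs_pow]
      exact mul_le_mul (hC x) (pow_le_pow_left₀ (abs_nonneg _) (fre_le hb om S P V s x) 2)
        (by positivity) ((abs_nonneg _).trans (hC x))
    · refine Filter.Eventually.of_forall fun x => ?_
      exact continuous_const.mul ((fre_cont b om S P V x).pow 2)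

end

end Pool.Agent.BEW.H6
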