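import Pool.Agent.Helper6_BEW.LVOA

/-!
# Squad BEW (MP_be01ff_an), row LVO: the energy of the other modes over a step, part B
-/

set_option autoImplicit false

namespace Pool.Agent.BEW.H6

open Set Filter Topology MeasureTheory
open scoped InnerProductSpace ENNReal
open Pool.Agent.BE01 Pool.Agent.BEL Pool.Agent.BEG Pool.Agent.BEH Pool.Agent.BER

noncomputable section

/-- powers of `R` -/
theorem lvo_r (al R : ℝ) (hR : 0 < R) :
    R ^ (al - min al 1) * R ^ (min al 1) = R ^ al ∧ R ^ (al + 1) = R ^ al * R ∧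
      R ^ (al + 2) = R ^ al * R ^ 2 := by
  refine ⟨?_, ?_, ?_⟩
  · rw [← Real.rpow_add hR]
    congr 1
    ring
  · rw [Real.rpow_add hR, Real.rpow_one]
  · rw [Real.rpow_add hR, Real.rpow_two]

theorem lvo_tau (τ m : ℝ) (h0 : 0 < τ) (h1 : τ ≤ 1) (hm : m ≤ 1) : τ ≤ τ ^ m := by
  have h := Real.rpow_le_rpow_of_exponent_ge h0 h1 hm
  rwa [Real.rpow_one] at h

/-- the body of TAY -/
def TayB (al C : ℝ) : Prop := ∀ c h D : ℝ, 0 < D → |c| ≤ D → |h| ≤ D →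
  |(|c + h| ^ al) - |c| ^ al| ≤ C * D ^ (al - min al 1) * |h| ^ (min al 1) ∧
  |gf 1 al (c + h) - gf 1 al c - (al + 1) * |c| ^ al * h| ≤
    C * D ^ (al - min al 1) * |h| ^ (min al 1) * |h| ∧
  |gf 1 al (c + h) - gf 1 al c| ≤ C * D ^ al * |h| ∧
  |(|c + h| ^ (al + 2)) - |c| ^ (al + 2)| ≤ C * D ^ (al + 1) * |h|

/-- E0 -/
theorem lvo_e0 {al C B R σ c h : ℝ} (hal : 0 < al) (tay : TayB al C) (hC : 0 < C) (hB : 0 < B)
    (hR : 0 < R) (hc : |c| ≤ 16 * B * R) (hh : |h| ≤ 16 * B * R) (hσ : |h| ≤ σ * R) (hσ0 : 0 ≤ σ)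
    (h1 : |c + h| ≤ 1) :
    gf 1 al c * h + (al + 1) * |c| ^ al * h ^ 2 -
      C * (16 * B) ^ (al - min al 1) * σ ^ (min al 1) * R ^ al * h ^ 2 ≤
      gl 1 al 1 (c + h) * h := by
  have hm : 0 < min al 1 := lt_min hal one_pos
  rw [Pool.Agent.BEL.H29.gl_eq hal h1]
  have hD : 0 < 16 * B * R := by positivity
  have h2 := (tay c h (16 * B * R) hD hc hh).2.1
  have h3 : |h| ^ (min al 1) ≤ (σ * R) ^ (min al 1) :=
    Real.rpow_le_rpow (abs_nonneg _) hσ hm.le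
  have h4 : (16 * B * R) ^ (al - min al 1) * (σ * R) ^ (min al 1) =
      (16 * B) ^ (al - min al 1) * σ ^ (min al 1) * R ^ al := by
    rw [Real.mul_rpow (by positivity) hR.le, Real.mul_rpow hσ0 hR.le, ← (lvo_r al R hR).1]
    ring
  have h5 : |gf 1 al (c + h) - gf 1 al c - (al + 1) * |c| ^ al * h| * |h| ≤
      C * (16 * B) ^ (al - min al 1) * σ ^ (min al 1) * R ^ al * h ^ 2 := by
    calc |gf 1 al (c + h) - gf 1 al c - (al + 1) * |c| ^ al * h| * |h|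
        ≤ (C * (16 * B * R) ^ (al - min al 1) * |h| ^ (min al 1) * |h|) * |h| :=
          mul_le_mul_of_nonneg_right h2 (abs_nonneg _)
      _ ≤ (C * (16 * B * R) ^ (al - min al 1) * (σ * R) ^ (min al 1) * |h|) * |h| := by
          have h6 : 0 ≤ (16 * B * R) ^ (al - min al 1) := by positivity
          gcongr
      _ = C * ((16 * B * R) ^ (al - min al 1) * (σ * R) ^ (min al 1)) * |h| ^ 2 := by ring
      _ = C * (16 * B) ^ (al - min al 1) * σ ^ (min al 1) * R ^ al * h ^ 2 := by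
          rw [h4, sq_abs]; ring
  rw [← abs_mul] at h5
  have h6 := (abs_le.1 h5).1
  nlinarith [h6]

/-- E1 -/
theorem lvo_e1 {al C CF R τ v0 c0 : ℝ} (hal : 0 < al) (tay : TayB al C) (hC : 0 < C)
    (hF : 0 < CF) (hR : 0 < R) (hτ : 0 < τ) (h1 : |v0| ≤ 2 * R) (h2 : |c0| ≤ R)
    (h3 : |v0 - c0| ≤ CF * τ * R) :
    |(|v0| ^ al) - |c0| ^ al| ≤
      C * 3 ^ (al - min al 1) * CF ^ (min al 1) * R ^ al * τ ^ (min al 1) := by
  have hm : 0 < min al 1 := lt_min hal one_pos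
  have h4 : |v0 - c0| ≤ 3 * R := (abs_sub _ _).trans (by linarith)
  have h5 := (tay c0 (v0 - c0) (3 * R) (by positivity) (by linarith) h4).1
  rw [add_sub_cancel] at h5
  have h6 : |v0 - c0| ^ (min al 1) ≤ (CF * τ * R) ^ (min al 1) :=
    Real.rpow_le_rpow (abs_nonneg _) h3 hm.le
  have h7 : (3 * R) ^ (al - min al 1) * (CF * τ * R) ^ (min al 1) =
      3 ^ (al - min al 1) * CF ^ (min al 1) * R ^ al * τ ^ (min al 1) := by
    rw [Real.mul_rpow (by norm_num) hR.le, Real.mul_rpow (by positivity) hR.le,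
      Real.mul_rpow hF.le hτ.le, ← (lvo_r al R hR).1]
    ring
  have h8 : 0 ≤ (3 * R) ^ (al - min al 1) := by positivity
  calc |(|v0| ^ al) - |c0| ^ al| ≤ C * (3 * R) ^ (al - min al 1) * |v0 - c0| ^ (min al 1) := h5
    _ ≤ C * (3 * R) ^ (al - min al 1) * (CF * τ * R) ^ (min al 1) := by gcongr
    _ = C * ((3 * R) ^ (al - min al 1) * (CF * τ * R) ^ (min al 1)) := by ring
    _ = _ := by rw [h7]; ring

/-- E2 -/
theorem lvo_e2 {al C CF R τ v0 c0 : ℝ} (tay : TayB al C) (hC : 0 < C)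
    (hR : 0 < R) (h1 : |v0| ≤ 2 * R) (h2 : |c0| ≤ R)
    (h3 : |v0 - c0| ≤ CF * τ * R) :
    |gf 1 al v0 - gf 1 al c0| ≤ C * 3 ^ al * CF * R ^ al * R * τ := by
  have h4 : |v0 - c0| ≤ 3 * R := (abs_sub _ _).trans (by linarith)
  have h5 := (tay c0 (v0 - c0) (3 * R) (by positivity) (by linarith) h4).2.2.1
  rw [add_sub_cancel] at h5
  rw [Real.mul_rpow (by norm_num) hR.le] at h5
  have h6 : 0 ≤ (3 : ℝ) ^ al := by positivity
  have h7 : 0 ≤ R ^ al := by positivity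
  calc |gf 1 al v0 - gf 1 al c0| ≤ C * (3 ^ al * R ^ al) * |v0 - c0| := h5
    _ ≤ C * (3 ^ al * R ^ al) * (CF * τ * R) := by gcongr
    _ = _ := by ring

variable {X : Type} [MeasurableSpace X]

/-- the integrated estimate at a fixed time -/
theorem lvo_pt {al C CF B m0 R σ η τ v0 c0 : ℝ} {μ : Measure X} [IsFiniteMeasure μ]
    {b0 h f : X → ℝ} (hal : 0 < al) (tay : TayB al C) (hC : 0 < C) (hF : 0 < CF) (hB : 0 < B)
    (hm0 : 0 < m0) (hμ : μ.real univ ≤ m0) (hR : 0 < R) (hτ : 0 < τ) (hτ1 : τ ≤ 1) (hσ0 : 0 ≤ σ)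
    (hη : 0 < η) (hη1 : η ≤ 1) (b0m : Bm b0) (hm : Bm h) (fm : Bm f) (b0b : ∀ x, |b0 x| ≤ B)
    (h1 : |v0| ≤ 2 * R) (h2 : |c0| ≤ R) (h3 : |v0 - c0| ≤ CF * τ * R)
    (h4 : ∫ x, (h x - f x) ^ 2 ∂μ ≤ (CF * τ * R) ^ 2) (h5 : ∫ x, h x ^ 2 ∂μ ≤ (4 * η * R) ^ 2)
    (h6 : ∀ x, |h x| ≤ σ * R) (h7 : ∀ x, |v0 * b0 x + h x| ≤ 14 * B * R) (h8 : 14 * B * R ≤ 1)
    (hgl : Integrable (fun x => gl 1 al 1 (v0 * b0 x + h x) * h x) μ) :
    -(2 * ∫ x, gl 1 al 1 (v0 * b0 x + h x) * h x ∂μ) ≤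
      -(2 * (al + 1) * |c0| ^ al * ∫ x, |b0 x| ^ al * f x ^ 2 ∂μ) -
        2 * gf 1 al c0 * (∫ x, |b0 x| ^ al * b0 x * f x ∂μ) +
      (2 * (C * (16 * B) ^ (al - min al 1) * 16) +
        (2 * (C * 3 ^ al * CF * (B ^ al * B) * 4 * Real.sqrt m0 +
          B ^ al * B * CF * Real.sqrt m0) +
         2 * (al + 1) * (C * 3 ^ (al - min al 1) * CF ^ (min al 1) * B ^ al * 16 +
          B ^ al * CF * (12 + 2 * CF)))) *
        ((σ ^ (min al 1) * η ^ 2 + τ ^ (min al 1)) * (R ^ al * R ^ 2)) := by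
  have hmin : 0 < min al 1 := lt_min hal one_pos
  have hmin1 : min al 1 ≤ 1 := min_le_right _ _
  have hρ : 0 < R ^ al := by positivity
  have hBa : 0 < B ^ al := by positivity
  have hω : τ ≤ τ ^ (min al 1) := lvo_tau τ _ hτ hτ1 hmin1
  have hω0 : 0 < τ ^ (min al 1) := by positivity
  have hs0 : 0 < Real.sqrt m0 := Real.sqrt_pos.2 hm0
  have hs2 : Real.sqrt m0 ^ 2 = m0 := Real.sq_sqrt hm0.le
  have hone : ∫ _x : X, (1 : ℝ) ^ 2 ∂μ ≤ Real.sqrt m0 ^ 2 := by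
    rw [hs2]
    simpa using hμ
  -- the functions
  have bal : Bm fun x => |b0 x| ^ al := b0m.rpow hal.le
  have bal1 : Bm fun x => |b0 x| ^ al * b0 x := bal.mul b0m
  have hbal : ∀ x, |(|b0 x| ^ al)| ≤ B ^ al := fun x => by
    rw [abs_of_nonneg (Real.rpow_nonneg (abs_nonneg _) _)]
    exact Real.rpow_le_rpow (abs_nonneg _) (b0b x) hal.le
  have hbal1 : ∀ x, |(|b0 x| ^ al * b0 x)| ≤ B ^ al * B := fun x => by
    rw [abs_mul]
    exact mul_le_mul (hbal x) (b0b x) (abs_nonneg _) hBa.le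
  have hh4 : ∫ x, h x ^ 2 ∂μ ≤ (4 * R) ^ 2 := by
    refine h5.trans (pow_le_pow_left₀ (by positivity) ?_ 2)
    nlinarith
  -- bounds for the integrals
  have i1 : |∫ x, |b0 x| ^ al * b0 x * h x ∂μ| ≤ B ^ al * B * (4 * R) * Real.sqrt m0 := by
    have := lvo_cs (μ := μ) (φ := fun x => |b0 x| ^ al * b0 x) (u := h) (w := fun _ => 1)
      (K := B ^ al * B) hm (Bm.cst 1) (by positivity) hbal1 (by positivity : 0 < 4 * R) hs0 hh4 hone
    simpa using this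
  have i2 : |∫ x, |b0 x| ^ al * b0 x * (h x - f x) ∂μ| ≤
      B ^ al * B * (CF * τ * R) * Real.sqrt m0 := by
    have := lvo_cs (μ := μ) (φ := fun x => |b0 x| ^ al * b0 x) (u := fun x => h x - f x)
      (w := fun _ => 1) (K := B ^ al * B) (hm.sub fm) (Bm.cst 1) (by positivity) hbal1
      (by positivity : 0 < CF * τ * R) hs0 h4 hone
    simpa using this
  have i3 : |∫ x, |b0 x| ^ al * h x ^ 2 ∂μ| ≤ B ^ al * (4 * R) * (4 * R) := by
    have := lvo_cs (μ := μ) (φ := fun x => |b0 x| ^ al) (u := h) (w := h)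
      (K := B ^ al) hm hm (by positivity) hbal (by positivity : 0 < 4 * R)
      (by positivity : 0 < 4 * R) hh4 hh4
    have e : ∀ x, |b0 x| ^ al * h x ^ 2 = |b0 x| ^ al * (h x * h x) := fun x => by ring
    simp only [e]
    exact this
  have hsum : ∫ x, (h x + f x) ^ 2 ∂μ ≤ ((12 + 2 * CF) * R) ^ 2 := by
    have e1 : ∫ x, (h x + f x) ^ 2 ∂μ ≤ ∫ x, (8 * h x ^ 2 + 2 * (h x - f x) ^ 2) ∂μ := by
      refine integral_mono (hm.add fm).sq.int
        (((Bm.cst 8).mul hm.sq).add ((Bm.cst 2).mul (hm.sub fm).sq)).int fun x => ?_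
      show (h x + f x) ^ 2 ≤ 8 * h x ^ 2 + 2 * (h x - f x) ^ 2
      nlinarith [sq_nonneg (3 * h x - f x), sq_nonneg (h x), sq_nonneg (f x)]
    rw [integral_add ((Bm.cst 8).mul hm.sq).int ((Bm.cst 2).mul (hm.sub fm).sq).int,
      integral_const_mul, integral_const_mul] at e1
    have e2 : (CF * τ * R) ^ 2 ≤ (CF * R) ^ 2 := by
      refine pow_le_pow_left₀ (by positivity) ?_ 2
      have : CF * τ * R = CF * R * τ := by ring
      rw [this]
      exact mul_le_of_le_one_right (by positivity) hτ1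
    have e3 : 8 * (4 * R) ^ 2 + 2 * (CF * R) ^ 2 ≤ ((12 + 2 * CF) * R) ^ 2 := by
      have : 0 ≤ R ^ 2 * CF := by positivity
      nlinarith [sq_nonneg R, sq_nonneg (CF * R)]
    linarith
  have i4 : |∫ x, |b0 x| ^ al * ((h x - f x) * (h x + f x)) ∂μ| ≤
      B ^ al * (CF * τ * R) * ((12 + 2 * CF) * R) :=
    lvo_cs (μ := μ) (φ := fun x => |b0 x| ^ al) (u := fun x => h x - f x)
      (w := fun x => h x + f x) (K := B ^ al) (hm.sub fm) (hm.add fm) (by positivity) hbal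
      (by positivity : 0 < CF * τ * R) (by positivity : 0 < (12 + 2 * CF) * R) h4 hsum
  -- splitting
  have d1 : ∫ x, |b0 x| ^ al * b0 x * (h x - f x) ∂μ = ∫ x, |b0 x| ^ al * b0 x * h x ∂μ -
      ∫ x, |b0 x| ^ al * b0 x * f x ∂μ := by
    rw [← integral_sub (bal1.mul hm).int (bal1.mul fm).int]
    refine integral_congr_ae (Filter.Eventually.of_forall fun x => ?_)
    simp only
    ring
  have d2 : ∫ x, |b0 x| ^ al * ((h x - f x) * (h x + f x)) ∂μ = ∫ x, |b0 x| ^ al * h x ^ 2 ∂μ -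
      ∫ x, |b0 x| ^ al * f x ^ 2 ∂μ := by
    rw [← integral_sub (bal.mul hm.sq).int (bal.mul fm.sq).int]
    refine integral_congr_ae (Filter.Eventually.of_forall fun x => ?_)
    simp only
    ring
  rw [d1] at i2
  rw [d2] at i4
  -- the lower bound
  set K0 : ℝ := C * (16 * B) ^ (al - min al 1) with hK0
  have hK0' : 0 < K0 := by rw [hK0]; positivity
  have low : gf 1 al v0 * (∫ x, |b0 x| ^ al * b0 x * h x ∂μ) +
      (al + 1) * |v0| ^ al * (∫ x, |b0 x| ^ al * h x ^ 2 ∂μ) -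
      K0 * σ ^ (min al 1) * R ^ al * (∫ x, h x ^ 2 ∂μ) ≤
      ∫ x, gl 1 al 1 (v0 * b0 x + h x) * h x ∂μ := by
    rw [← integral_const_mul, ← integral_const_mul, ← integral_const_mul,
      ← integral_add ((Bm.cst _).mul (bal1.mul hm)).int ((Bm.cst _).mul (bal.mul hm.sq)).int,
      ← integral_sub (((Bm.cst _).mul (bal1.mul hm)).add ((Bm.cst _).mul (bal.mul hm.sq))).int
        ((Bm.cst _).mul hm.sq).int]
    refine integral_mono ((((Bm.cst _).mul (bal1.mul hm)).add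
      ((Bm.cst _).mul (bal.mul hm.sq))).sub ((Bm.cst _).mul hm.sq)).int hgl fun x => ?_
    have hc : |v0 * b0 x| ≤ 2 * R * B := by
      rw [abs_mul]
      exact mul_le_mul h1 (b0b x) (abs_nonneg _) (by positivity)
    have hBR : 0 < B * R := by positivity
    have hh : |h x| ≤ 16 * B * R := by
      have e : h x = (v0 * b0 x + h x) - v0 * b0 x := by ring
      rw [e]
      refine (abs_sub _ _).trans ?_
      have := h7 x
      nlinarith
    have key := lvo_e0 (c := v0 * b0 x) (h := h x) hal tay hC hB hR (by nlinarith) hh (h6 x) hσ0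
      ((h7 x).trans h8)
    refine le_trans (le_of_eq ?_) key
    show gf 1 al v0 * (|b0 x| ^ al * b0 x * h x) + (al + 1) * |v0| ^ al * (|b0 x| ^ al * h x ^ 2) -
      K0 * σ ^ (min al 1) * R ^ al * h x ^ 2 = _
    rw [abs_mul, Real.mul_rpow (abs_nonneg _) (abs_nonneg _)]
    unfold gf
    rw [abs_mul, Real.mul_rpow (abs_nonneg _) (abs_nonneg _)]
    ring
  have E1 := lvo_e1 hal tay hC hF hR hτ h1 h2 h3
  have E2 := lvo_e2 tay hC hR h1 h2 h3
  set I1h := ∫ x, |b0 x| ^ al * b0 x * h x ∂μ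
  set I1f := ∫ x, |b0 x| ^ al * b0 x * f x ∂μ
  set I2h := ∫ x, |b0 x| ^ al * h x ^ 2 ∂μ
  set I2f := ∫ x, |b0 x| ^ al * f x ^ 2 ∂μ
  set G := ∫ x, gl 1 al 1 (v0 * b0 x + h x) * h x ∂μ
  have hc0 : |c0| ^ al ≤ R ^ al := Real.rpow_le_rpow (abs_nonneg _) h2 hal.le
  have hc0' : 0 ≤ |c0| ^ al := by positivity
  have hgc0 : |gf 1 al c0| ≤ R ^ al * R := by
    unfold gf
    rw [one_mul, abs_mul, abs_of_nonneg hc0']
    exact mul_le_mul hc0 h2 (abs_nonneg _) hρ.le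
  -- the first difference
  have D1 : |gf 1 al v0 * I1h - gf 1 al c0 * I1f| ≤
      (C * 3 ^ al * CF * (B ^ al * B) * 4 * Real.sqrt m0 + B ^ al * B * CF * Real.sqrt m0) *
        (R ^ al * R ^ 2 * τ) := by
    have e : gf 1 al v0 * I1h - gf 1 al c0 * I1f =
        (gf 1 al v0 - gf 1 al c0) * I1h + gf 1 al c0 * (I1h - I1f) := by ring
    rw [e]
    refine (abs_add_le _ _).trans ?_
    rw [abs_mul, abs_mul]
    have a1 := mul_le_mul E2 i1 (abs_nonneg _) (by positivity)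
    have a2 := mul_le_mul hgc0 i2 (abs_nonneg _) (by positivity)
    calc |gf 1 al v0 - gf 1 al c0| * |I1h| + |gf 1 al c0| * |I1h - I1f|
        ≤ C * 3 ^ al * CF * R ^ al * R * τ * (B ^ al * B * (4 * R) * Real.sqrt m0) +
          R ^ al * R * (B ^ al * B * (CF * τ * R) * Real.sqrt m0) := add_le_add a1 a2
      _ = _ := by ring
  have D2 : |(|v0| ^ al) * I2h - |c0| ^ al * I2f| ≤
      (C * 3 ^ (al - min al 1) * CF ^ (min al 1) * B ^ al * 16) * (R ^ al * R ^ 2 *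
        τ ^ (min al 1)) + B ^ al * CF * (12 + 2 * CF) * (R ^ al * R ^ 2 * τ) := by
    have e : (|v0| ^ al) * I2h - |c0| ^ al * I2f =
        (|v0| ^ al - |c0| ^ al) * I2h + |c0| ^ al * (I2h - I2f) := by ring
    rw [e]
    refine (abs_add_le _ _).trans ?_
    rw [abs_mul, abs_mul]
    have a1 := mul_le_mul E1 i3 (abs_nonneg _) (by positivity)
    have hc0'' : |(|c0| ^ al)| ≤ R ^ al := by rwa [abs_of_nonneg hc0']
    have a2 := mul_le_mul hc0'' i4 (abs_nonneg _) (by positivity)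
    calc |(|v0| ^ al - |c0| ^ al)| * |I2h| + |(|c0| ^ al)| * |I2h - I2f|
        ≤ C * 3 ^ (al - min al 1) * CF ^ (min al 1) * R ^ al * τ ^ (min al 1) *
          (B ^ al * (4 * R) * (4 * R)) +
          R ^ al * (B ^ al * (CF * τ * R) * ((12 + 2 * CF) * R)) := add_le_add a1 a2
      _ = _ := by ring
  have D0 : K0 * σ ^ (min al 1) * R ^ al * (∫ x, h x ^ 2 ∂μ) ≤
      K0 * 16 * (σ ^ (min al 1) * η ^ 2 * (R ^ al * R ^ 2)) := by
    have hσm : 0 ≤ σ ^ (min al 1) := by positivity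
    calc K0 * σ ^ (min al 1) * R ^ al * (∫ x, h x ^ 2 ∂μ)
        ≤ K0 * σ ^ (min al 1) * R ^ al * (4 * η * R) ^ 2 := by gcongr
      _ = _ := by ring
  have hRR : 0 < R ^ al * R ^ 2 := by positivity
  have hτω : R ^ al * R ^ 2 * τ ≤ R ^ al * R ^ 2 * τ ^ (min al 1) :=
    mul_le_mul_of_nonneg_left hω hRR.le
  set c1 : ℝ := C * 3 ^ al * CF * (B ^ al * B) * 4 * Real.sqrt m0 +
    B ^ al * B * CF * Real.sqrt m0 with hc1
  set c2 : ℝ := C * 3 ^ (al - min al 1) * CF ^ (min al 1) * B ^ al * 16 with hc2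
  set c3 : ℝ := B ^ al * CF * (12 + 2 * CF) with hc3
  have hc1' : 0 ≤ c1 := by rw [hc1]; positivity
  have hc2' : 0 ≤ c2 := by rw [hc2]; positivity
  have hc3' : 0 ≤ c3 := by rw [hc3]; positivity
  set W := R ^ al * R ^ 2 * τ ^ (min al 1) with hW
  have hW0 : 0 ≤ W := by positivity
  have D1' : |gf 1 al v0 * I1h - gf 1 al c0 * I1f| ≤ c1 * W :=
    D1.trans (mul_le_mul_of_nonneg_left hτω hc1')
  have D2' : |(|v0| ^ al) * I2h - |c0| ^ al * I2f| ≤ (c2 + c3) * W := by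
    refine D2.trans ?_
    have := mul_le_mul_of_nonneg_left hτω hc3'
    linarith
  have f1 := (abs_le.1 D1').1
  have f2 := (abs_le.1 D2').1
  have f3 : (al + 1) * (-((c2 + c3) * W)) ≤
      (al + 1) * ((|v0| ^ al) * I2h - |c0| ^ al * I2f) :=
    mul_le_mul_of_nonneg_left f2 (by linarith)
  set Z := σ ^ (min al 1) * η ^ 2 * (R ^ al * R ^ 2) with hZ
  have hZ0 : 0 ≤ Z := by
    have hσm : 0 ≤ σ ^ (min al 1) := by positivity
    positivity
  have fin1 : -(2 * G) ≤ -(2 * (al + 1) * |c0| ^ al * I2f) - 2 * gf 1 al c0 * I1f +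
      2 * (K0 * 16) * Z + (2 * c1 + 2 * (al + 1) * (c2 + c3)) * W := by
    linarith
  have fin2 : 2 * (K0 * 16) * Z + (2 * c1 + 2 * (al + 1) * (c2 + c3)) * W ≤
      (2 * (K0 * 16) + (2 * c1 + 2 * (al + 1) * (c2 + c3))) * (Z + W) := by
    have g1 : 0 ≤ 2 * (K0 * 16) * W := by positivity
    have g2 : 0 ≤ (2 * c1 + 2 * (al + 1) * (c2 + c3)) * Z := by positivity
    nlinarith
  have fin3 : (σ ^ (min al 1) * η ^ 2 + τ ^ (min al 1)) * (R ^ al * R ^ 2) = Z + W := by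
    rw [hZ, hW]; ring
  rw [fin3]
  linarith

end

end Pool.Agent.BEW.H6
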